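import Mathlib
import Pool.Agent.Helper94.Tarski.Indic
import Pool.Agent.Helper94.BiOrder

set_option autoImplicit false

namespace Pool.Agent.Results.MP_5ef000_al.SimpleWithLaw

/-- Let `G` be a simple group with a total order invariant under right multiplication that
satisfies a nontrivial law. Then `G` is not finitely generated, and every nontrivial finitely
generated subgroup of `G` maps onto `ℤ`. -/
theorem result :
    ∀ (G : Type) [Group G], IsSimpleGroup G →
      (∃ lo : LinearOrder G, ∀ x y z : G, lo.lt x y → lo.lt (x * z) (y * z)) →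
      (∃ (r : ℕ) (w : FreeGroup (Fin r)), w ≠ 1 ∧ ∀ f : Fin r → G, FreeGroup.lift f w = 1) →
        ¬ Group.FG G ∧
        ∀ H : Subgroup G, H.FG → H ≠ ⊥ →
          ∃ φ : H →* Multiplicative ℤ, Function.Surjective φ := by
  classical
  rintro G _ hS ⟨lo, hlo⟩ ⟨r, w, hw, hlaw⟩
  have hLI : ∀ H : Subgroup G, H.FG → H ≠ ⊥ →
          ∃ φ : H →* Multiplicative ℤ, Function.Surjective φ := by
    intro H hH hHb
    have hnt : Nontrivial H := (Subgroup.nontrivial_iff_ne_bot H).2 hHb
    refine Pool.Agent.Helper94.Tarski.surj_of_law (G := H)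
      ((Group.fg_iff_subgroup_fg H).2 hH)
      (fun a b => lo.lt (a : G) (b : G))
      (fun a h => ((lo.lt_iff_le_not_ge _ _).1 h).2 (lo.le_refl _))
      (by
        intro a b d h1 h2
        let _ := lo
        exact lt_trans (a := (a : G)) h1 h2)
      (by
        intro a b
        let _ := lo
        rcases lt_trichotomy (a : G) (b : G) with h | h | h
        · exact Or.inl h
        · exact Or.inr (Or.inl (Subtype.ext h))
        · exact Or.inr (Or.inr h))
      (fun a b c h => hlo _ _ _ h) r w hw ?_
    intro f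
    have h1 := hlaw (fun i => (f i : G))
    have h2 : (FreeGroup.lift (fun i => (f i : G))) = H.subtype.comp (FreeGroup.lift f) := by
      ext i
      simp
    rw [h2] at h1
    exact Subtype.ext h1
  refine ⟨?_, hLI⟩
  intro hfg
  have htopb : (⊤ : Subgroup G) ≠ ⊥ := by
    intro h
    obtain ⟨a, ha⟩ := exists_ne (1 : G)
    exact ha (Subgroup.mem_bot.1 (h ▸ Subgroup.mem_top a))
  obtain ⟨φ, hφ⟩ := hLI ⊤ (Group.fg_def.1 hfg) htopb
  let ψ : G →* Multiplicative ℤ := φ.comp (Subgroup.topEquiv.symm.toMonoidHom)
  have hψ : Function.Surjective ψ := hφ.comp Subgroup.topEquiv.symm.surjective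
  have htf : ∀ a : G, ∀ m : ℕ, 0 < m → a ^ m = 1 → a = 1 := fun a m hm ha =>
    Pool.Agent.Helper94.BiOrder.tf_of_ro lo (by
      intro a b d hab
      let _ := lo
      rcases eq_or_lt_of_le hab with h | h
      · rw [h]
      · exact le_of_lt (hlo a b d h)) a m hm ha
  rcases (inferInstance : ψ.ker.Normal).eq_bot_or_eq_top with h | h
  · -- `ψ` is injective, so `G` is abelian and has the normal subgroup of squares
    have hinj : Function.Injective ψ := (MonoidHom.ker_eq_bot_iff ψ).1 h
    have hcomm : ∀ a b : G, a * b = b * a := fun a b => hinj (by rw [map_mul, map_mul, mul_comm])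
    obtain ⟨a, ha⟩ := hψ (Multiplicative.ofAdd 1)
    have ha1 : a ≠ 1 := by
      rintro rfl
      rw [map_one] at ha
      exact absurd (congrArg Multiplicative.toAdd ha) (by simp)
    have hno : (Subgroup.zpowers (a ^ 2)).Normal := by
      constructor
      intro x hx g
      rw [hcomm g x, mul_inv_cancel_right]; exact hx
    rcases hno.eq_bot_or_eq_top with h2 | h2
    · exact ha1 (htf a 2 (by norm_num) (Subgroup.zpowers_eq_bot.1 h2))
    · have : a ∈ Subgroup.zpowers (a ^ 2) := by rw [h2]; trivial
      obtain ⟨k, hk⟩ := Subgroup.mem_zpowers_iff.1 this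
      have h3 := congrArg (fun g => Multiplicative.toAdd (ψ g)) hk
      simp [ha] at h3
      omega
  · obtain ⟨x, hx⟩ := hψ (Multiplicative.ofAdd 1)
    have : x ∈ ψ.ker := by rw [h]; trivial
    rw [MonoidHom.mem_ker, hx] at this
    exact absurd (congrArg Multiplicative.toAdd this) (by simp)

end Pool.Agent.Results.MP_5ef000_al.SimpleWithLaw
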